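import Pool.Agent.Lib.TNF.HS.Spec
import Pool.Agent.Lib.TATE.Asm.Gc3
import Pool.Agent.Lib.TATE.FL.FL

/-!
# PROJECT TNF, HS: the flat transport near a point
-/

set_option autoImplicit false

open Topology Metric

noncomputable section

namespace TNF.HS

open HC HC.CC SEJ SEB SEQ TATE

namespace Gcy3_aux

variable {p N : ℕ}

theorem t_cont {D : Dt p N} (h : D.ok) {s : Fin p → ℂ} (hs : Function.Injective s) (n : Fin N) :
    ContinuousAt (fun s' => D.t s' n) s := by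
  rw [continuousAt_pi]
  intro j
  unfold Dt.t
  cases hk : D.k n with
  | none => exact (continuous_apply (D.i n j)).continuousAt
  | some l =>
    change ContinuousAt (fun s' : Fin p → ℂ => (s' (D.i n j) - s' l)⁻¹) s
    have hc : Continuous fun s' : Fin p → ℂ => s' (D.i n j) - s' l := by fun_prop
    refine ContinuousAt.inv₀ hc.continuousAt ?_
    intro h0
    have h1 := h.lt n l hk j
    have h2 : D.i n j = l := hs (sub_eq_zero.1 h0)
    exact absurd h1 (by rw [h2]; exact lt_irrefl _)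

theorem trn_apply (Φ : FF) (D : Dt p N) (h : D.ok) (s s' : Fin p → ℂ) (v : D.V) (n : Fin N) :
    trn Φ D h s s' v n = (Φ _ _ _ (h.cv n)).τ (D.t s n) (D.t s' n) (v n) := rfl

theorem trn_lat (Φ : FF) (D : Dt p N) (h : D.ok) {s s' : Fin p → ℂ} (hs : Function.Injective s)
    (hb : ∀ n, D.t s' n ∈ ball (D.t s n) ((Φ _ _ _ (h.cv n)).ρ (D.t s n))) :
    trn Φ D h s s' '' D.L s = D.L s' := by
  have hl : ∀ n, (Φ _ _ _ (h.cv n)).τ (D.t s n) (D.t s' n) '' LQ (D.m n) (D.b n) (D.t s n) =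
      LQ (D.m n) (D.b n) (D.t s' n) := fun n => FL.lat _ (FL.t_inj h hs n) (hb n)
  ext v
  constructor
  · rintro ⟨u, hu, rfl⟩ n
    rw [← hl n]
    exact ⟨u n, hu n, rfl⟩
  · intro hv
    refine ⟨(trn Φ D h s s').symm v, fun n => ?_, LinearEquiv.apply_symm_apply _ _⟩
    have h1 := hv n
    rw [← hl n] at h1
    obtain ⟨u, hu, hu'⟩ := h1
    have h2 : (trn Φ D h s s').symm v n = u := by
      apply ((Φ _ _ _ (h.cv n)).τ (D.t s n) (D.t s' n)).injective
      rw [hu', ← trn_apply Φ D h, LinearEquiv.apply_symm_apply]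
    rw [h2]
    exact hu

end Gcy3_aux

open Gcy3_aux TATE.Gc3_aux in
theorem tGcy3 : StmtFP → StmtPA4 → StmtFL → S_Coc → S_Gcy3 := by
  intro hFP hPA4 hFL hCoc Φ p N D h s hs
  have h1 : ∀ᶠ s' in 𝓝 s, Function.Injective s' ∧
      ∀ n, D.t s' n ∈ ball (D.t s n) ((Φ _ _ _ (h.cv n)).ρ (D.t s n)) := by
    refine Filter.Eventually.and ((NI.Opn_aux.inj_open p).mem_nhds hs) ?_
    rw [Filter.eventually_all]
    intro n
    exact (t_cont h hs n) (ball_mem_nhds _ ((Φ _ _ _ (h.cv n)).rpos _ (FL.t_inj h hs n)))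
  obtain ⟨ε, hε, hb⟩ := Metric.eventually_nhds_iff_ball.1 h1
  refine ⟨ε, hε, fun s' hs' => ⟨(hb s' hs').1, (hb s' hs').2, trn_lat Φ D h hs (hb s' hs').2, ?_⟩⟩
  intro Y d c hc hw
  obtain ⟨hfin, M, hM⟩ := hFL Φ p N D h s (s' - s) hs
  have hpth : IsPth (Bd s (s' - s)) (fun t : ℝ => (t : ℂ)) 0 1 := by
    refine ⟨Complex.continuous_ofReal, Complex.ofReal_zero, Complex.ofReal_one, ?_⟩
    intro t ht hbad
    exact hbad (hb _ (ln_mem hs' ht)).1
  obtain ⟨O, hO, hcO⟩ := hc.2 (s' - s) hw M hM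
  have htr : IsTr M (fun t : ℝ => (t : ℂ)) (fun t => trn Φ D h s (ln s (s' - s) (t : ℂ))) := by
    constructor
    · intro v
      funext n
      rw [trn_apply, Complex.ofReal_zero, ln_zero]
      exact (Φ _ _ _ (h.cv n)).one _ (FL.t_inj h hs n) (v n)
    · intro t ht
      have hF : (t : ℂ) ∉ Bd s (s' - s) := hpth.mem t ht
      refine ⟨M.r (t : ℂ), M.rpos _ hF, fun t' ht' hlt => ?_⟩
      have hmem : (t' : ℂ) ∈ ball (t : ℂ) (M.r (t : ℂ)) := by
        rw [mem_ball, dist_eq_norm, ← Complex.ofReal_sub, Complex.norm_real]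
        exact hlt
      refine ⟨hmem, fun v => ?_⟩
      funext n
      rw [hM.τ _ hF _ hmem, trn_apply, trn_apply]
      exact (hCoc _ _ _ (Φ _ _ _ (h.cv n)) (D.t s n) (D.t (ln s (s' - s) (t : ℂ)) n)
        (D.t (ln s (s' - s) (t' : ℂ)) n) (FL.t_inj h hs n) ((hb _ (ln_mem hs' ht)).2 n)
        ((hb _ (ln_mem hs' ht')).2 n) (hM.r _ hF _ hmem n) (v n)).symm
  have h2 := (hPA4 hFP D.V (Bd s (s' - s)) hfin M d O hO _ 0 1 hpth _ htr c hcO).2
  have h3 : ln s (s' - s) ((1 : ℝ) : ℂ) = s' := by rw [Complex.ofReal_one, ln_one]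
  rw [h3] at h2
  exact h2

end TNF.HS
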