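import Pool.Agent.Lib.TATE.Asm.Spec

/-!
# PROJECT TNF, package HS (note 4967, section 4): classes with finite flat families at an arbitrary point

`s` is any injective point. `GCY Φ D h s Y c`: `c` is rational and belongs to a finite flat family on every line through `s` with a direction
outside `Y`. `trn Φ D h s s'`: the flat transport from `s` to a near point `s'` (the product of the `FamD.τ`).

Modules: file `TNF/HS/Xyz.lean`, `theorem tXyz : S_Xyz` (namespace `TNF.HS`); if the docstring says `From S_A, StmtB` the theorem is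
`tXyz : S_A → StmtB → S_Xyz`. Auxiliary lemmas in `namespace TNF.HS.Xyz_aux`.
-/

set_option autoImplicit false

open Topology Metric

noncomputable section

namespace TNF.HS

open HC HC.CC SEJ SEB SEQ TATE

section gc

variable {p N : ℕ}

/-- `c` belongs to a finite flat family on the lines through `s` with direction outside `Y` (`Y = ∅`: `TATE.GC`). -/
def GCY (Φ : FF) (D : Dt p N) (h : D.ok) (s : Fin p → ℂ) (Y : Set (Fin p → ℂ)) {d : ℕ} (c : Cl D.V d) : Prop :=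
  Rtc (D.L s) c ∧ ∀ w : Fin p → ℂ, w ∉ Y → ∀ M : Fml D.V (Bd s w), IsLn Φ D h s w M →
    ∃ O, IsFF M O ∧ c ∈ O 0

/-- The flat transport from `s` to the near point `s'`. -/
def trn (Φ : FF) (D : Dt p N) (h : D.ok) (s s' : Fin p → ℂ) : D.V ≃ₗ[ℝ] D.V :=
  LinearEquiv.piCongrRight fun n => (Φ _ _ _ (h.cv n)).τ (D.t s n) (D.t s' n)

end gc

/-- **Gcy1**: A `ℚ`-SPACE. PROOF. As `TATE.tGc1`. -/
def S_Gcy1 : Prop :=
  ∀ (Φ : FF) (p N : ℕ) (D : Dt p N) (h : D.ok) (s : Fin p → ℂ) (Y : Set (Fin p → ℂ)) (d : ℕ),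
    GCY Φ D h s Y (0 : Cl D.V d) ∧ ∀ (c c' : Cl D.V d) (x y : ℚ), GCY Φ D h s Y c →
      GCY Φ D h s Y c' → GCY Φ D h s Y ((x : ℂ) • c + (y : ℂ) • c')

/-- **Gcy2**: STABLE UNDER `i`. From S_Rq, S_Av, StmtFP, StmtPA1, StmtPA3, StmtPA4. PROOF. As `TATE.tGc2`. -/
def S_Gcy2 : Prop :=
  ∀ (Φ : FF) (p N : ℕ) (D : Dt p N) (h : D.ok) (s : Fin p → ℂ), Function.Injective s →
    ∀ (Y : Set (Fin p → ℂ)) (d : ℕ) (c c' : Cl D.V d), GCY Φ D h s Y c → IsDr (jm D.V) c c' →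
    ∀ (n : ℕ) (x : Fin n → ℝ) (e : Fin n → Cl D.V d), LinearIndependent ℚ x →
      (∀ k, Rtc (D.L s) (e k)) → c' = ∑ k, (x k : ℂ) • e k → ∀ k, GCY Φ D h s Y (e k)

/-- **Gcy3**: NEAR `s`. From StmtFP, StmtPA4, StmtFL, S_Coc. PROOF. `w = s' - s`, `γ t = t`, `φ t = trn s (s + t w)` is a transport along
`γ` on the line (`IsTr`: `S_Coc`, `IsLn.r`, `IsLn.τ`), `φ 1 = trn s s'`; `JC` from `StmtPA4`. -/
def S_Gcy3 : Prop :=
  ∀ (Φ : FF) (p N : ℕ) (D : Dt p N) (h : D.ok) (s : Fin p → ℂ), Function.Injective s →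
    ∃ ε > 0, ∀ s' ∈ ball s ε, Function.Injective s' ∧
      (∀ n, D.t s' n ∈ ball (D.t s n) ((Φ _ _ _ (h.cv n)).ρ (D.t s n))) ∧
      trn Φ D h s s' '' D.L s = D.L s' ∧
      ∀ (Y : Set (Fin p → ℂ)) (d : ℕ) (c : Cl D.V d), GCY Φ D h s Y c → s' - s ∉ Y →
        JC (trn Φ D h s s' : D.V →ₗ[ℝ] D.V) c

/-- **Kil**: THE LIE ALGEBRA STEP with two points `s₁`, `s₂` near `s` (not at `s`). From S_Lsa, S_Dr, S_Rq, S_Av, S_Gcy1, S_Gcy2, S_Gcy3.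
PROOF. `I = {c | GCY c}`, `I₁ = φ₁ I` (`φ_i = trn s s_i`) satisfies the hypotheses of `S_Lsa` for `L = D.L s₁`, `L' = D.L s₂`, `φ = φ₂ φ₁⁻¹`: `JC φ (φ₁ c)`
because `i φ₂ c = φ₂ (i c)` and `i φ₁ c = φ₁ (i c)`; the components of `i φ₁ c = φ₁ (i c)` are `φ₁` of the components of `i c` (`S_Gcy2`). -/
def S_Kil : Prop :=
  ∀ (Φ : FF) (p N : ℕ) (D : Dt p N) (h : D.ok) (s : Fin p → ℂ), Function.Injective s →
    ∃ ε > 0, ∀ s₁ ∈ ball s ε, ∀ s₂ ∈ ball s ε,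
      ∀ (Y : Set (Fin p → ℂ)) (d : ℕ) (c : Cl D.V d), GCY Φ D h s Y c → s₁ - s ∉ Y → s₂ - s ∉ Y →
      ∀ (q q' : ℕ) (R : Fin q → AV) (R' : Fin q' → AV) (m : Fin q → ℕ) (m' : Fin q' → ℕ)
        (E : ∀ n, Cyc (R n) (m n)) (E' : ∀ n, Cyc (R' n) (m' n)),
        (∀ h, HLP E E' h → ∀ X : Tup R, (∀ n, IsSU (E n) (X n)) →
          ((X, 0) : Tup R × Tup R') ∈ Submodule.span ℝ h) →
        ∀ (A : Tup R → (D.V →ₗ[ℝ] D.V)) (A' : Tup R' → (D.V →ₗ[ℝ] D.V)), IsRp (D.L s₁) A →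
        IsRp (D.L s₂) A' → ∀ X : Tup R, (∀ n, IsSU (E n) (X n)) →
        ∀ a, der (A X) (psh (trn Φ D h s s₁ : D.V →ₗ[ℝ] D.V) c) a = 0

/-- **Two**: TWO GOOD POINTS near `s`. PROOF. `{(s₁, s₂) | s₁ ∈ Z}` is meagre (open maps), Baire. -/
def S_Two : Prop :=
  ∀ (p : ℕ) (s : Fin p → ℂ) (X : Set ((Fin p → ℂ) × (Fin p → ℂ))) (Y Z : Set (Fin p → ℂ)),
    IsMeagre X → IsMeagre Y → IsMeagre Z → ∀ ε > 0, ∃ s₁ ∈ ball s ε, ∃ s₂ ∈ ball s ε,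
      (s₁, s₂) ∉ X ∧ s₁ - s ∉ Y ∧ s₂ - s ∉ Y ∧ s₁ ∉ Z ∧ s₂ ∉ Z

/-- **HS**: `i` KILLS THE CLASSES WITH FINITE FLAT FAMILIES AT EVERY POINT. From S_Kil, S_Two, S_Gcy3, S_Rep, S_Rp, S_Ht2, S_Ni, S_Av, S_Jc.
PROOF. `s₁`, `s₂` from `S_Two`; as `TATE.tLs`: `φ₁ c` is killed by `∏ su` at `s₁` (`S_Kil`), so by `i` (`S_Jc`), so `i c = 0` (`JC φ₁ c`, `φ₁` is bijective). -/
def StmtHS : Prop :=
  ∀ (Φ : FF) (p : ℕ) (s : Fin p → ℂ), Function.Injective s → ∀ (N : ℕ) (D : Dt p N) (h : D.ok) (d : ℕ),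
    (∀ n, Bal (D.m n) (D.b n) ∨ d < D.r n) → ∀ Y : Set (Fin p → ℂ), IsMeagre Y →
    ∀ c : Cl D.V d, GCY Φ D h s Y c → ∀ a, der (jm D.V) c a = 0

end TNF.HS
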