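import Pool.Agent.Lib.TNF.HS.Spec
import Pool.Agent.Lib.TATE.Asm.Gc1

/-!
# PROJECT TNF, HS: the classes of finite flat families form a rational space
-/

set_option autoImplicit false

open Topology Metric

noncomputable section

namespace TNF.HS

open HC HC.CC SEJ SEB SEQ TATE



open TATE.Gc1_aux in
theorem tGcy1 : S_Gcy1 := by
  intro Φ p N D h s Y d
  refine ⟨⟨rtc_zero, fun w _ M _ => ⟨fun _ => {0}, ⟨fun _ _ => Set.finite_singleton _,
    fun z _ z' _ => ?_⟩, rfl⟩⟩, fun c c' x y hc hc' => ⟨rtc_comb hc.1 hc'.1 x y,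
    fun w hw M hM => ?_⟩⟩
  · rw [Set.image_singleton, psh_zero]
  · obtain ⟨O, hO, hcO⟩ := hc.2 w hw M hM
    obtain ⟨O', hO', hcO'⟩ := hc'.2 w hw M hM
    refine ⟨fun z => Set.image2 (fun a b => (x : ℂ) • a + (y : ℂ) • b) (O z) (O' z),
      ⟨fun z hz => (hO.fin z hz).image2 _ (hO'.fin z hz), fun z hz z' hz' => ?_⟩,
      ⟨c, hcO, c', hcO', rfl⟩⟩
    rw [hO.flat z hz z' hz', hO'.flat z hz z' hz', Set.image_image2_distrib
      (f' := fun a b => (x : ℂ) • a + (y : ℂ) • b)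
      (g₁ := psh (M.τ z z' : D.V →ₗ[ℝ] D.V)) (g₂ := psh (M.τ z z' : D.V →ₗ[ℝ] D.V))]
    intro a b
    exact psh_comb _ _ _ _ _

end TNF.HS
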