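import Pool.Agent.Lib.TNF.HS.Spec
import Pool.Agent.Lib.TATE.Asm.Gc2

/-! # The classes with finite flat families are stable under `i` -/

set_option autoImplicit false

open Topology Metric

noncomputable section

namespace TNF.HS

open HC HC.CC SEJ SEB SEQ TATE



open TATE.Gc2_aux

theorem tGcy2 : S_Rq → S_Av → StmtFP → StmtPA1 → StmtPA3 → StmtPA4 → S_Gcy2 := by
  intro hRq hAv hFP hPA1 hPA3 hPA4 Φ p N D h s hs Y d c c' hc hc' n x e hx he hsum k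
  refine ⟨he k, fun w hw M hM => ?_⟩
  have hfin := bd_finite s w hs
  obtain ⟨_, hQ, _⟩ := hAv p N D s h hs
  obtain ⟨_, hR2, _, hR4, hR5⟩ := hRq D.V (D.L s) d hQ
  obtain ⟨O, hO, hcO⟩ := hc.2 w hw M hM
  have h0F : (0 : ℂ) ∉ Bd s w := by
    intro hb
    apply hb
    rw [ln_zero]
    exact hs
  refine hPA3 D.V (Bd s w) hfin M ∅ Set.countable_empty 0 h0F (Set.notMem_empty _) d (e k) ?_
  have hpar : ∀ γ φ, IsPth (Bd s w ∪ ∅) γ 0 0 → IsTr M γ φ →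
      psh (φ 1 : D.V →ₗ[ℝ] D.V) c ∈ O 0 ∧
      (∀ a, psh (φ 1 : D.V →ₗ[ℝ] D.V) c' a = der (jm D.V) (psh (φ 1 : D.V →ₗ[ℝ] D.V) c) a) ∧
      ∀ k, Rtc (D.L s) (psh (φ 1 : D.V →ₗ[ℝ] D.V) (e k)) := by
    intro γ φ hγ hφ
    rw [Set.union_empty] at hγ
    obtain ⟨h1, h2⟩ := hPA4 hFP D.V (Bd s w) hfin M d O hO γ 0 0 hγ φ hφ c hcO
    refine ⟨h1, fun a => ?_, fun k => ?_⟩
    · rw [h2 a]
      exact hc' _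
    · have h3 := (hPA1 D.V (Bd s w) hfin M γ 0 0 hγ).2.2 φ hφ 1 ⟨zero_le_one, le_refl _⟩
      rw [hγ.tgt, hM.L 0 h0F, ln_zero] at h3
      exact hR5 D.V (φ 1) (D.L s) (e k) h3 (he k)
  have hsub : {c'' | ∃ γ φ, IsPth (Bd s w ∪ ∅) γ 0 0 ∧ IsTr M γ φ ∧
      c'' = psh (φ 1 : D.V →ₗ[ℝ] D.V) (e k)} ⊆
      ⋃ o ∈ O 0, {c'' | ∃ γ φ, IsPth (Bd s w ∪ ∅) γ 0 0 ∧ IsTr M γ φ ∧
        psh (φ 1 : D.V →ₗ[ℝ] D.V) c = o ∧ c'' = psh (φ 1 : D.V →ₗ[ℝ] D.V) (e k)} := by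
    rintro c'' ⟨γ, φ, hγ, hφ, rfl⟩
    exact Set.mem_iUnion₂.mpr ⟨_, (hpar γ φ hγ hφ).1, γ, φ, hγ, hφ, rfl, rfl⟩
  refine ((hO.fin 0 h0F).biUnion fun o _ => ?_).subset hsub
  refine Set.Subsingleton.finite ?_
  rintro _ ⟨γ, φ, hγ, hφ, ho, rfl⟩ _ ⟨γ', φ', hγ', hφ', ho', rfl⟩
  obtain ⟨_, h1, h2⟩ := hpar γ φ hγ hφ
  obtain ⟨_, h1', h2'⟩ := hpar γ' φ' hγ' hφ'
  have h3 : psh (φ 1 : D.V →ₗ[ℝ] D.V) c' = psh (φ' 1 : D.V →ₗ[ℝ] D.V) c' := by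
    ext a
    rw [h1, h1', ho, ho']
  rw [hsum, psh_sum, psh_sum] at h3
  have h4 : ∑ k, (x k : ℂ) • (psh (φ 1 : D.V →ₗ[ℝ] D.V) (e k) - psh (φ' 1 : D.V →ₗ[ℝ] D.V) (e k)) = 0 := by
    simp_rw [smul_sub, Finset.sum_sub_distrib]
    rw [h3, sub_self]
  have h5 := hR2 n x _ hx (fun k => ?_) h4 k
  · exact sub_eq_zero.mp h5
  · have h6 := hR4 _ _ (1 : ℚ) (-1 : ℚ) (h2 k) (h2' k)
    have h7 : ((1 : ℚ) : ℂ) • psh (φ 1 : D.V →ₗ[ℝ] D.V) (e k) +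
        ((-1 : ℚ) : ℂ) • psh (φ' 1 : D.V →ₗ[ℝ] D.V) (e k) =
        psh (φ 1 : D.V →ₗ[ℝ] D.V) (e k) - psh (φ' 1 : D.V →ₗ[ℝ] D.V) (e k) := by
      push_cast
      rw [one_smul, neg_smul, one_smul, sub_eq_add_neg]
    rw [h7] at h6
    exact h6

end TNF.HS
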