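import Pool.Agent.Lib.TNF.HS.Spec
import Pool.Agent.Lib.TATE.Asm.Ls

/-!
# PROJECT TNF, HS: `i` kills the classes with finite flat families at every point
-/

set_option autoImplicit false

open Topology Metric

noncomputable section

namespace TNF.HS

open HC HC.CC SEJ SEB SEQ TATE

open TATE.Ls_aux in
theorem tHS : S_Kil → S_Two → S_Gcy3 → TATE.S_Rep → S_Rp → S_Ht2 → S_Ni → S_Av →
    TATE.S_Jc → StmtHS := by
  intro hKil hTwo hG3 hRep hRp hHt hNi hAv hJc Φ p s hs N D h d hd Y hY c hc a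
  obtain ⟨X1, hX1, H1⟩ := hHt p
  obtain ⟨X2, hX2, H2⟩ := hNi p
  obtain ⟨ε₁, hε₁, hK⟩ := hKil Φ p N D h s hs
  obtain ⟨ε₂, hε₂, hB⟩ := hG3 Φ p N D h s hs
  obtain ⟨s₁, hs₁, s₂, hs₂, hx, hy₁, hy₂, -, -⟩ := hTwo p s (X1 ∪ X2) Y ∅ (meagre_union hX1 hX2)
    hY IsMeagre.empty (min ε₁ ε₂) (lt_min hε₁ hε₂)
  obtain ⟨hi₁, -, -, hJ₁⟩ := hB s₁ (ball_subset_ball (min_le_right _ _) hs₁)
  obtain ⟨hi₂, -, -, -⟩ := hB s₂ (ball_subset_ball (min_le_right _ _) hs₂)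
  have hx1 : (s₁, s₂) ∉ X1 := fun hx' => hx (Or.inl hx')
  have hx2 : (s₁, s₂) ∉ X2 := fun hx' => hx (Or.inr hx')
  obtain ⟨-, hQ, J, Z, κ, hnew, hκ⟩ := hAv p N D s₁ h hi₁
  obtain ⟨-, hQ', J', Z', κ', hnew', hκ'⟩ := hAv p N D s₂ h hi₂
  obtain ⟨q, ρ, j, hj, hρ⟩ := hRep N J
  obtain ⟨q', ρ', j', hj', hρ'⟩ := hRep N J'
  obtain ⟨E, E', hEp, hh⟩ := H1 (s₁, s₂) hx1 q q' (sub D ρ) (sub D ρ') (sub_ok h ρ)
    (sub_ok h ρ') (fun a => J (ρ a)) (fun a => J' (ρ' a)) (fun a => Z (ρ a))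
    (fun a => Z' (ρ' a)) (fun a => hnew (ρ a)) (fun a => hnew' (ρ' a)) hρ hρ'
    (fun a b => H2 (s₁, s₂) hx2 N N D D h h (ρ a) (ρ' b) (J (ρ a)) (J' (ρ' b)) (Z (ρ a))
      (Z' (ρ' b)) (hnew (ρ a)) (hnew' (ρ' b)))
  obtain ⟨θ, A, hθ, hA⟩ := hRp p N D s₁ J κ hκ q (fun a => J (ρ a)) j hj
  obtain ⟨-, A', -, hA'⟩ := hRp p N D s₂ J' κ' hκ' q' (fun a => J' (ρ' a)) j' hj'
  have key : ∀ X : Tup (fun a => J (ρ a)), (∀ n, IsSU (E n) (X n)) →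
      ∀ a, der (A X) (psh (trn Φ D h s s₁ : D.V →ₗ[ℝ] D.V) c) a = 0 :=
    hK s₁ (ball_subset_ball (min_le_left _ _) hs₁) s₂ (ball_subset_ball (min_le_left _ _) hs₂) Y d c
      hc hy₁ hy₂ q q' (fun a => J (ρ a)) (fun a => J' (ρ' a)) _ _ E E' hh A A' hA hA'
  have hm : ∀ a, 3 ≤ D.m (ρ a) := fun a => (h.cv (ρ a)).1
  have hfin : ∀ a, der (jm D.V) (psh (trn Φ D h s s₁ : D.V →ₗ[ℝ] D.V) c) a = 0 := by
    refine hJc N (fun n => Ix (D.m n) (D.b n) → ℂ) q (fun a => J (ρ a)) (fun a => D.m (ρ a))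
      (fun a => D.r (ρ a)) E j θ A hθ hm (fun a => (hnew (ρ a)).dim) d (fun a => ?_) _ key
    rcases hd (ρ a) with hb | hb
    · left
      intro u
      have : NeZero (D.m (ρ a)) := ⟨by have := hm a; omega⟩
      have h1 := hb (u : ZMod (D.m (ρ a))).val (ZMod.val_lt _) (ZMod.val_coe_unit_coprime u)
      have h2 := hb ((-u : (ZMod (D.m (ρ a)))ˣ) : ZMod (D.m (ρ a))).val (ZMod.val_lt _)
        (ZMod.val_coe_unit_coprime (-u))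
      have e1 := hEp a u
      have e2 := hEp a (-u)
      change (E a).p u = sg (D.m (ρ a)) (D.r (ρ a)) (D.b (ρ a)) (u : ZMod (D.m (ρ a))).val at e1
      change (E a).p (-u) = sg (D.m (ρ a)) (D.r (ρ a)) (D.b (ρ a))
        ((-u : (ZMod (D.m (ρ a)))ˣ) : ZMod (D.m (ρ a))).val at e2
      change 2 * sg (D.m (ρ a)) (D.r (ρ a)) (D.b (ρ a)) (u : ZMod (D.m (ρ a))).val = _ at h1
      change 2 * sg (D.m (ρ a)) (D.r (ρ a)) (D.b (ρ a))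
        ((-u : (ZMod (D.m (ρ a)))ˣ) : ZMod (D.m (ρ a))).val = _ at h2
      refine e1.trans (Eq.trans ?_ e2.symm)
      omega
    · exact Or.inr hb
  have h1 := hJ₁ Y d c hc hy₁ (fun i => a i ∘ₗ ((trn Φ D h s s₁).symm : D.V →ₗ[ℝ] D.V))
  rw [hfin] at h1
  have h3 : (fun i => (a i ∘ₗ ((trn Φ D h s s₁).symm : D.V →ₗ[ℝ] D.V)) ∘ₗ
      (trn Φ D h s s₁ : D.V →ₗ[ℝ] D.V)) = a := by
    funext i
    refine LinearMap.ext fun v => ?_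
    change a i ((trn Φ D h s s₁).symm (trn Φ D h s s₁ v)) = a i v
    rw [LinearEquiv.symm_apply_apply]
  rw [h3] at h1
  exact h1.symm

end TNF.HS
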