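import Pool.Agent.Lib.TNF.HS.Spec
import Pool.Agent.Lib.TATE.Asm.Gc1
import Pool.Agent.Lib.TATE.Asm.Gc2

/-!
# PROJECT TNF, HS: the Lie algebra step with two points near `s`
-/

set_option autoImplicit false

open Topology Metric

noncomputable section

namespace TNF.HS

open HC HC.CC SEJ SEB SEQ TATE

namespace Kil_aux

variable {V : Type} [NormedAddCommGroup V] [NormedSpace ℂ V]

theorem psh_psh {d : ℕ} (φ ψ : V →ₗ[ℝ] V) (c : Cl V d) : psh ψ (psh φ c) = psh (ψ ∘ₗ φ) c := by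
  ext a
  rfl

theorem psh_id {d : ℕ} (φ : V →ₗ[ℝ] V) (h : ∀ v, φ v = v) (c : Cl V d) : psh φ c = c := by
  ext a
  have h1 : (fun i => pl φ (a i)) = a := by
    funext i
    refine LinearMap.ext fun v => ?_
    change a i (φ v) = a i v
    rw [h]
  change c (fun i => pl φ (a i)) = c a
  rw [h1]

theorem sym_psh {d : ℕ} (φ : V ≃ₗ[ℝ] V) (c : Cl V d) :
    psh (φ : V →ₗ[ℝ] V) (psh (φ.symm : V →ₗ[ℝ] V) c) = c := by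
  rw [psh_psh]
  exact psh_id _ (fun v => φ.apply_symm_apply v) c

theorem psh_add {d : ℕ} (φ : V →ₗ[ℝ] V) (a b : Cl V d) : psh φ (a + b) = psh φ a + psh φ b := by
  ext v
  rfl

theorem psh_smul {d : ℕ} (φ : V →ₗ[ℝ] V) (x : ℂ) (a : Cl V d) : psh φ (x • a) = x • psh φ a := by
  ext v
  rfl

theorem comp_eq (φ₁ φ₂ : V ≃ₗ[ℝ] V) :
    ((φ₁.symm.trans φ₂ : V ≃ₗ[ℝ] V) : V →ₗ[ℝ] V) ∘ₗ (φ₁ : V →ₗ[ℝ] V) = (φ₂ : V →ₗ[ℝ] V) := by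
  refine LinearMap.ext fun v => ?_
  change φ₂ (φ₁.symm (φ₁ v)) = φ₂ v
  rw [LinearEquiv.symm_apply_apply]

theorem symm_image {L L' : Set V} (φ : V ≃ₗ[ℝ] V) (h : φ '' L = L') : φ.symm '' L' = L := by
  rw [← h, ← Set.image_comp]
  have h1 : (⇑φ.symm ∘ ⇑φ) = id := by
    funext v
    exact φ.symm_apply_apply v
  rw [h1, Set.image_id]

theorem trans_image {L L₁ L₂ : Set V} (φ₁ φ₂ : V ≃ₗ[ℝ] V) (h₁ : φ₁ '' L = L₁) (h₂ : φ₂ '' L = L₂) :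
    (φ₁.symm.trans φ₂ : V ≃ₗ[ℝ] V) '' L₁ = L₂ := by
  have h3 := symm_image φ₁ h₁
  have h4 : (⇑(φ₁.symm.trans φ₂ : V ≃ₗ[ℝ] V)) = ⇑φ₂ ∘ ⇑φ₁.symm := rfl
  rw [h4, Set.image_comp, h3, h₂]

/-- `JC` for the transport between the near points. -/
theorem jc_trans {d : ℕ} (φ₁ φ₂ : V ≃ₗ[ℝ] V) {c : Cl V d} (h₁ : JC (φ₁ : V →ₗ[ℝ] V) c)
    (h₂ : JC (φ₂ : V →ₗ[ℝ] V) c) :
    JC ((φ₁.symm.trans φ₂ : V ≃ₗ[ℝ] V) : V →ₗ[ℝ] V) (psh (φ₁ : V →ₗ[ℝ] V) c) := by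
  intro a
  rw [psh_psh, comp_eq, h₂ a, h₁]
  have h3 : (fun i => a i ∘ₗ (φ₂ : V →ₗ[ℝ] V)) = fun i =>
      (a i ∘ₗ ((φ₁.symm.trans φ₂ : V ≃ₗ[ℝ] V) : V →ₗ[ℝ] V)) ∘ₗ (φ₁ : V →ₗ[ℝ] V) := by
    funext i
    rw [LinearMap.comp_assoc, comp_eq]
  rw [h3]

/-- The derivation at `s` from the derivation at the near point. -/
theorem dr_symm {d : ℕ} (φ : V ≃ₗ[ℝ] V) {c c' : Cl V d} (h : JC (φ : V →ₗ[ℝ] V) c)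
    (h' : IsDr (jm V) (psh (φ : V →ₗ[ℝ] V) c) c') :
    IsDr (jm V) c (psh (φ.symm : V →ₗ[ℝ] V) c') := by
  intro a
  change c' (fun i => a i ∘ₗ (φ.symm : V →ₗ[ℝ] V)) = _
  rw [h' _, h]
  have h3 : (fun i => (a i ∘ₗ (φ.symm : V →ₗ[ℝ] V)) ∘ₗ (φ : V →ₗ[ℝ] V)) = a := by
    funext i
    refine LinearMap.ext fun v => ?_
    change a i (φ.symm (φ v)) = a i v
    rw [LinearEquiv.symm_apply_apply]
  rw [h3]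

end Kil_aux

open Kil_aux in
theorem tKil : S_Lsa → S_Rq → S_Av → S_Gcy1 → S_Gcy2 → S_Gcy3 → S_Kil := by
  intro hLsa hRq hAv hG1 hG2 hG3 Φ p N D h s hs
  obtain ⟨ε, hε, hball⟩ := hG3 Φ p N D h s hs
  refine ⟨ε, hε, ?_⟩
  intro s₁ hs₁ s₂ hs₂ Y d c hc hY₁ hY₂ q q' R R' m m' E E' hE A A' hA hA' X hX
  obtain ⟨hi₁, -, hL₁, hJ₁⟩ := hball s₁ hs₁
  obtain ⟨hi₂, -, hL₂, hJ₂⟩ := hball s₂ hs₂
  have hQ : IsQ D.V (D.L s) := (hAv p N D s h hs).2.1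
  have hQ₁ : IsQ D.V (D.L s₁) := (hAv p N D s₁ h hi₁).2.1
  have hQ₂ : IsQ D.V (D.L s₂) := (hAv p N D s₂ h hi₂).2.1
  have hG := hG1 Φ p N D h s Y d
  refine hLsa D.V (D.L s₁) (D.L s₂) hQ₁ hQ₂ ((trn Φ D h s s₁).symm.trans (trn Φ D h s s₂))
    (trans_image _ _ hL₁ hL₂) d
    {c' | ∃ c₀, GCY Φ D h s Y c₀ ∧ c' = psh (trn Φ D h s s₁ : D.V →ₗ[ℝ] D.V) c₀}
    ?_ ?_ ?_ ?_ ?_ ?_ q q' R R' m m' E E' hE A A' hA hA' _ ⟨c, hc, rfl⟩ X hX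
  · rintro _ ⟨c₀, hc₀, rfl⟩
    exact (hRq D.V (D.L s) d hQ).2.2.2.2 D.V (trn Φ D h s s₁) (D.L s₁) c₀ hL₁ hc₀.1
  · exact ⟨0, hG.1, (TATE.Gc1_aux.psh_zero _).symm⟩
  · rintro _ ⟨a, ha, rfl⟩ _ ⟨b, hb, rfl⟩
    refine ⟨a + b, ?_, (psh_add _ _ _).symm⟩
    have := hG.2 a b 1 1 ha hb
    simpa using this
  · rintro x _ ⟨a, ha, rfl⟩
    refine ⟨(x : ℂ) • a, ?_, (psh_smul _ _ _).symm⟩
    have := hG.2 a a x 0 ha ha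
    simpa using this
  · rintro _ ⟨a, ha, rfl⟩
    exact jc_trans _ _ (hJ₁ Y d a ha hY₁) (hJ₂ Y d a ha hY₂)
  · rintro _ ⟨a, ha, rfl⟩ c' hc' n x e hx he hsum k
    refine ⟨psh ((trn Φ D h s s₁).symm : D.V →ₗ[ℝ] D.V) (e k), ?_, (sym_psh _ _).symm⟩
    refine hG2 Φ p N D h s hs Y d a (psh ((trn Φ D h s s₁).symm : D.V →ₗ[ℝ] D.V) c') ha
      (dr_symm _ (hJ₁ Y d a ha hY₁) hc') n x
      (fun k => psh ((trn Φ D h s s₁).symm : D.V →ₗ[ℝ] D.V) (e k)) hx (fun k => ?_) ?_ k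
    · exact (hRq D.V (D.L s₁) d hQ₁).2.2.2.2 D.V (trn Φ D h s s₁).symm (D.L s) (e k)
        (symm_image _ hL₁) (he k)
    · rw [hsum, TATE.Gc2_aux.psh_sum]

end TNF.HS
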