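import Pool.Agent.Lib.TNF.HS.Spec

/-!
# PROJECT TNF, HS: two good points near `s`
-/

set_option autoImplicit false

open Topology Metric

noncomputable section

namespace TNF.HS

open HC HC.CC SEJ SEB SEQ TATE

namespace Two_aux

theorem sub_map {E : Type} [NormedAddCommGroup E] (s : E) {Y : Set E} (hY : IsMeagre Y) :
    IsMeagre {x : E | x - s ∈ Y} := by
  have h := hY.preimage_of_isOpenMap (continuous_sub_right s) (Homeomorph.subRight s).isOpenMap
  exact h

theorem fst_map {E F : Type} [TopologicalSpace E] [TopologicalSpace F] {Y : Set E} (hY : IsMeagre Y) :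
    IsMeagre {x : E × F | x.1 ∈ Y} :=
  hY.preimage_of_isOpenMap continuous_fst isOpenMap_fst

theorem snd_map {E F : Type} [TopologicalSpace E] [TopologicalSpace F] {Y : Set F} (hY : IsMeagre Y) :
    IsMeagre {x : E × F | x.2 ∈ Y} :=
  hY.preimage_of_isOpenMap continuous_snd isOpenMap_snd

end Two_aux

open Two_aux in
theorem tTwo : S_Two := by
  intro p s X Y Z hX hY hZ ε hε
  have h1 : IsMeagre (X ∪ {x : (Fin p → ℂ) × (Fin p → ℂ) | x.1 ∈ {y | y - s ∈ Y} ∪ Z} ∪
      {x : (Fin p → ℂ) × (Fin p → ℂ) | x.2 ∈ {y | y - s ∈ Y} ∪ Z}) :=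
    (hX.union (fst_map ((sub_map s hY).union hZ))).union (snd_map ((sub_map s hY).union hZ))
  have hd := dense_of_mem_residual h1
  obtain ⟨⟨s₁, s₂⟩, hx, hb⟩ := hd.exists_mem_open (isOpen_ball.prod isOpen_ball)
    ⟨(s, s), mem_ball_self hε, mem_ball_self hε⟩
  exact ⟨s₁, hb.1, s₂, hb.2, fun h => hx (Or.inl (Or.inl h)),
    fun h => hx (Or.inl (Or.inr (Or.inl h))), fun h => hx (Or.inr (Or.inl h)),
    fun h => hx (Or.inl (Or.inr (Or.inr h))), fun h => hx (Or.inr (Or.inr h))⟩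

end TNF.HS
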