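import Pool.Agent.Lib.TATE.All
import Pool.Agent.Lib.TNF.HS.Gcy1
import Pool.Agent.Lib.TNF.HS.Gcy2
import Pool.Agent.Lib.TNF.HS.Gcy3
import Pool.Agent.Lib.TNF.HS.Kil
import Pool.Agent.Lib.TNF.HS.Two
import Pool.Agent.Lib.TNF.HS.HS

/-!
# PROJECT TNF, HS: all modules
-/

set_option autoImplicit false

noncomputable section

namespace TNF.HS

open TATE

theorem aGcy2 : S_Gcy2 := tGcy2 tRq aAv tFP PA.cPA1 PA.cPA3 PA.cPA4

theorem aGcy3 : S_Gcy3 := tGcy3 tFP PA.cPA4 tFL tCoc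

theorem aKil : S_Kil := tKil aLsa tRq aAv tGcy1 aGcy2 aGcy3

/-- **HS**. -/
theorem aHS : StmtHS := tHS aKil tTwo aGcy3 tRep tRp aHt2 aNi aAv tJc

end TNF.HS
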